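import Pool.Agent.H78.S.Targets

/-!
# Theorem S (MP_9d0bb7_lc), row CRD: coordinates
-/

set_option autoImplicit false

open Set Pool.Agent.H77.BC Pool.Agent.H78.S
open scoped Pointwise

namespace Pool.Agent.H72.S

theorem transport {ι A : Type*} (P : A → Prop) (F : ∀ a, P a → Type) (e : ι → A)
    (he : ∀ i, P (e i)) (inj : Function.Injective e) (sur : ∀ a, P a → ∃ i, a = e i)
    (v : ∀ i, F (e i) (he i)) : ∃ u : ∀ a h, F a h, ∀ i, u (e i) (he i) = v i := by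
  have h1 : ∀ a h, ∃ z : F a h, ∀ i, e i = a → HEq (v i) z := by
    intro a h
    obtain ⟨i, rfl⟩ := sur a h
    exact ⟨v i, fun j hj => by
      have h2 := inj hj
      subst h2
      rfl⟩
  choose u hu using h1
  exact ⟨u, fun i => (eq_of_heq (hu _ _ i rfl)).symm⟩

theorem coo (hCOO : T_COO) {M : Type} (U : RU M) {G S : Type} [Group G] [MulAction G S] [Cod M G]
    [Cod M S] {m : ℕ} (x : Fin (m + 1 + 2) → S) (hF : Frm U G x) (hN : Nt U G x)
    (h10 : (1 : Fin (m + 1 + 2)) ≠ 0)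
    (e : Fin (m + 1) → Set (S × S)) (he : ∀ l, e l ∈ LL U G x 1) (inj : Function.Injective e)
    (sur : ∀ E ∈ LL U G x 1, ∃ l, E = e l) :
    ∃ L : ∀ l, LF U G x 1 (e l),
      (∀ v : ∀ l, (L l).K, ∃! y, y ∈ XX U G x 1 ∧ ∀ l, (L l).f y = v l) ∧
      (∀ u v : ∀ l, (L l).K, (∀ l, u l ≠ 0) → ∃ g ∈ HH U G x 0 1, ∀ l, ∀ y ∈ XX U G x 1,
        (L l).f (g • y) = u l * (L l).f y + v l) ∧
      (∀ y, y ∈ Orb (TT U G x 0) (x 0) ↔ y ∈ XX U G x 1 ∧ ∀ l, (L l).f y ≠ 0) := by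
  classical
  let Lc : ∀ E ∈ LL U G x 1, LF U G x 1 E := fun E h => h.some
  obtain ⟨c1, -, c3, c4⟩ := hCOO U x hF hN 1 h10 Lc
  refine ⟨fun l => Lc (e l) (he l), ?_, ?_, ?_⟩
  · intro v
    obtain ⟨u, hu⟩ := transport (fun E => E ∈ LL U G x 1) (fun E h => (Lc E h).K) e he inj sur v
    obtain ⟨y, ⟨hy, hyu⟩, huniq⟩ := c1 u
    refine ⟨y, ⟨hy, fun l => by rw [hyu, hu]⟩, ?_⟩
    rintro z ⟨hz, hzv⟩
    refine huniq z ⟨hz, fun E h => ?_⟩
    obtain ⟨l, rfl⟩ := sur E h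
    rw [hu]
    exact hzv l
  · intro u v hne
    obtain ⟨u', hu⟩ := transport (fun E => E ∈ LL U G x 1) (fun E h => (Lc E h).K) e he inj sur u
    obtain ⟨v', hv⟩ := transport (fun E => E ∈ LL U G x 1) (fun E h => (Lc E h).K) e he inj sur v
    obtain ⟨g, hg, hgg⟩ := c3 u' v' (by
      intro E h
      obtain ⟨l, rfl⟩ := sur E h
      rw [hu]
      exact hne l)
    refine ⟨g, hg, fun l y hy => ?_⟩
    rw [hgg _ (he l) y hy, hu, hv]
  · intro y
    rw [c4 y]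
    refine ⟨fun h => ⟨h.1, fun l => h.2 _ _⟩, fun h => ⟨h.1, fun E hE => ?_⟩⟩
    obtain ⟨l, rfl⟩ := sur E hE
    exact h.2 l

theorem cc_le {M : Type} (U : RU M) {Γ : Type} [Group Γ] [Cod M Γ] (H : Subgroup Γ)
    (h : U.D (H : Set Γ)) : cc U H ≤ H :=
  sInf_le ⟨le_rfl, h, by rw [Subgroup.relIndex_self]; exact one_ne_zero⟩

theorem D_Fx {M : Type} (U : RU M) {G S : Type} [Group G] [MulAction G S] [Cod M G]
    [Cod M S] [DG U G] [Ful U S] (hact : DFn U (fun p : G × S => p.1 • p.2)) (H : Subgroup G)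
    (o : S) (h : U.D (H : Set G)) : U.D (Fx H o : Set G) := by
  have h1 : DFn U (fun g : G => g • o) :=
    DFn_comp (U := U) (f := fun g : G => (g, o)) hact (DFn_pair DFn_id (DFn_const o))
  have h2 : U.D {g : G | g • o ∈ ({o} : Set S)} := DFn_preim h1 (D_singleton o)
  have h3 := D_inter h h2
  have e : (Fx H o : Set G) = (H : Set G) ∩ {g : G | g • o ∈ ({o} : Set S)} := by
    ext g
    simp [Fx, MulAction.mem_stabilizer_iff]
  rw [e]
  exact h3

theorem pf_CRD (hKAP : T_KAP) (hFUN : T_FUN) (hSW2 : T_SW2) (hCOO : T_COO) (hLNK : T_LNK)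
    (hHIC : T_HIC) (hCJH : T_CJH) : T_CRD := by
  classical
  intro M U G S _ _ _ _ m x hF hI hN ω hω
  haveI := hF.dg
  haveI := hF.ful
  obtain ⟨E, hE⟩ := hKAP U x hF hI hN ω hω
  have h1s : (1 : Fin (m + 1 + 2)) = (0 : Fin (m + 2)).succ := rfl
  have h10 : (1 : Fin (m + 1 + 2)) ≠ 0 := by
    rw [h1s]
    exact Fin.succ_ne_zero _
  have ss0 : ∀ l : Fin (m + 1), (l.succ.succ : Fin (m + 1 + 2)) ≠ 0 :=
    fun l => Fin.succ_ne_zero _
  have ss1 : ∀ l : Fin (m + 1), (1 : Fin (m + 1 + 2)) ≠ l.succ.succ := by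
    intro l h
    rw [h1s] at h
    exact Fin.succ_ne_zero _ (Fin.succ_injective _ h).symm
  have ssi : ∀ l l' : Fin (m + 1), (l.succ.succ : Fin (m + 1 + 2)) = l'.succ.succ → l = l' := by
    intro l l' h
    exact Fin.succ_injective _ (Fin.succ_injective _ h)
  have e0 : ((0 : Fin (m + 1)).succ.succ : Fin (m + 1 + 2)) = 2 := by
    apply Fin.ext
    rw [Fin.val_succ, Fin.val_succ]
    show 0 + 1 + 1 = 2 % (m + 1 + 2)
    rw [Nat.mod_eq_of_lt (by omega)]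
  have hsw : Equiv.swap (1 : Fin (m + 1 + 2)) ((0 : Fin (m + 1)).succ.succ) =
      Equiv.swap 1 2 := by rw [e0]
  have hsw2 : ∀ l : Fin (m + 1 + 2), Equiv.swap ((0 : Fin (m + 1)).succ.succ) l =
      Equiv.swap 2 l := by
    intro l
    rw [e0]
  have he : ∀ l : Fin (m + 1), E 1 l.succ.succ ∈ LL U G x 1 := fun l =>
    hE.mem 1 _ h10 (ss0 l) (ss1 l)
  obtain ⟨L, c1, c3, c4⟩ := coo hCOO U x hF hN h10 (fun l => E 1 l.succ.succ) he
    (fun l l' h => ssi _ _ (hE.inj 1 _ _ h10 (ss0 l) (ss0 l') (ss1 l) (ss1 l') h))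
    (by
      intro F hFF
      obtain ⟨j, hj0, hj1, rfl⟩ := hE.all 1 h10 F hFF
      obtain ⟨z, rfl⟩ := Fin.exists_succ_eq.2 hj0
      have hz : z ≠ 0 := by
        intro h
        rw [h] at hj1
        exact hj1 h1s
      obtain ⟨w, rfl⟩ := Fin.exists_succ_eq.2 hz
      exact ⟨w, rfl⟩)
  have hθ : ∀ l : Fin (m + 1), ∃ θ : (L 0).K ≃+* (L l).K,
      (l = 0 → ∀ y, θ ((L 0).f y) = (L l).f y) ∧
      (l ≠ 0 → ∀ y ∈ Orb (TT U G x 0) (x 0),
        (L l).f (ω (Equiv.swap 1 2) • y) = (L l).f y * (θ ((L 0).f y))⁻¹) := by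
    intro l
    by_cases hl : l = 0
    · subst hl
      exact ⟨RingEquiv.refl _, fun _ y => rfl, fun h => absurd rfl h⟩
    · obtain ⟨θ, hθ⟩ := (hFUN U x hF hN ω hω E hE 1 _ h10 (ss0 0) (ss1 0) (L 0)).2 l.succ.succ
        (ss0 l) (ss1 l) (fun h => hl (ssi _ _ h).symm) (L l)
      refine ⟨θ, fun h => absurd h hl, fun _ y hy => ?_⟩
      rw [← hsw]
      exact hθ y hy
  choose θ hθ0 hθ1 using hθ
  have hθz : ∀ y, (θ 0).symm ((L 0).f y) = (L 0).f y := by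
    intro y
    rw [RingEquiv.symm_apply_eq]
    exact (hθ0 0 rfl y).symm
  obtain ⟨hctx, -, -⟩ := hHIC U x hF 1 h10
  have hact := hF.act
  have hHm : ∀ h ∈ HH U G x 0 1, ∀ z ∈ XX U G x 1, h • z ∈ XX U G x 1 := by
    rintro h hh z ⟨g, hg, rfl⟩
    exact ⟨h * g, mul_mem hh hg, (mul_smul _ _ _).symm⟩
  have hTH : TT U G x 0 ≤ HH U G x 0 1 := by
    rw [hctx.comp]
    refine (cc_le U _ (D_Fx U hact _ _ hctx.conn.1)).trans ?_
    exact inf_le_left
  refine ⟨(L 0).K, (L 0).fld, fun z l => (θ l).symm ((L l).f z), ?_,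
    hI.mac hact _ _ _ _ _ hctx _ (L 0)⟩
  refine ⟨(L 0).line.inf, ?_, ?_, ?_, ?_, ?_, ?_, ?_⟩
  · intro v
    obtain ⟨z, ⟨hz, hzv⟩, huniq⟩ := c1 (fun l => θ l (v l))
    refine ⟨z, ⟨hz, ?_⟩, ?_⟩
    · funext l
      simp only [hzv l, RingEquiv.symm_apply_apply]
    · rintro w ⟨hw, hwv⟩
      refine huniq w ⟨hw, fun l => ?_⟩
      have h1 : (θ l).symm ((L l).f w) = v l := congrFun hwv l
      rw [← h1, RingEquiv.apply_symm_apply]
  · intro c b hc
    obtain ⟨g, hg, hgg⟩ := c3 (fun l => θ l (c l)) (fun l => θ l (b l))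
      (fun l => (map_ne_zero_iff _ (θ l).injective).2 (hc l))
    refine ⟨g, hg, fun z hz => ⟨hHm g hg z hz, ?_⟩⟩
    funext l
    simp only [hgg l z hz, map_add, map_mul, RingEquiv.symm_apply_apply]
  · intro t ht
    refine ⟨fun l => (θ l).symm ((L l).f (t • x 0)), fun l => ?_, fun z hz =>
      ⟨hHm t (hTH ht) z hz, ?_⟩⟩
    · exact (map_ne_zero_iff _ (θ l).symm.injective).2
        ((hLNK U hact _ _ _ _ _ hctx _ (L l)).1 t ht).1
    · funext l
      simp only [((hLNK U hact _ _ _ _ _ hctx _ (L l)).1 t ht).2 z hz, map_mul]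
  · intro z
    rw [c4 z]
    refine and_congr Iff.rfl (forall_congr' fun l => ?_)
    exact (map_ne_zero_iff _ (θ l).symm.injective).symm
  · intro z hz
    have hw := hω.mem 0 1 h10.symm
    refine ⟨hHm _ hw z hz, ?_⟩
    funext l
    have h1 := (hLNK U hact _ _ _ _ _ hctx _ (L l)).2.2.2.2.2.2.2.2 (ω (Equiv.swap 0 1)) hw
      (by rw [hω.pm, Equiv.swap_apply_right]) (by rw [hω.pm, Equiv.swap_apply_left]) z hz
    simp only [h1, map_sub, map_one]
  · intro z hz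
    obtain ⟨hf1, hf2⟩ := (hFUN U x hF hN ω hω E hE 1 _ h10 (ss0 0) (ss1 0) (L 0)).1 z hz
    rw [hsw] at hf1 hf2
    refine ⟨hf1, ?_⟩
    funext l
    by_cases hl : l = 0
    · subst hl
      simp only [hf2, map_inv₀, if_true]
    · simp only [hθ1 l hl z hz, map_mul, map_inv₀, RingEquiv.symm_apply_apply, if_neg hl, hθz]
  · intro l hl z hz
    have hne : (0 : Fin (m + 1)).succ.succ ≠ (l.succ.succ : Fin (m + 1 + 2)) :=
      fun h => hl (ssi _ _ h).symm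
    obtain ⟨s1, s2⟩ := hSW2 U x hF hI hN ω hω E hE 1 _ _ h10 (ss0 0) (ss0 l) (ss1 0) (ss1 l) hne
      (L 0) (L l) (θ l) (by
        intro y hy
        refine ⟨((hFUN U x hF hN ω hω E hE 1 _ h10 (ss0 0) (ss1 0) (L 0)).1 y hy).2, ?_⟩
        rw [hsw]
        exact hθ1 l hl y hy)
    obtain ⟨t1, t2, t3⟩ := s1 z hz
    rw [hsw2] at t1 t2 t3
    refine ⟨t1, fun k => ?_⟩
    by_cases hk0 : k = 0
    · subst hk0
      rw [Equiv.swap_apply_left]
      change (θ 0).symm ((L 0).f _) = _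
      rw [hθz, t2]
    · by_cases hkl : k = l
      · subst hkl
        rw [Equiv.swap_apply_right]
        simp only [hθz, t3, RingEquiv.symm_apply_apply]
      · rw [Equiv.swap_apply_of_ne_of_ne hk0 hkl]
        have h3 := s2 k.succ.succ (ss0 k) (ss1 k) (fun h => hk0 (ssi _ _ h).symm)
          (fun h => hkl (ssi _ _ h).symm) (L k) z hz
        rw [hsw2] at h3
        simp only [h3]

end Pool.Agent.H72.S
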